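import Pool.Agent.H43.G.R_seed8.H300R2.BH.Defs
import Pool.Agent.H43.G.R_seed8.H442R2.EHI.PolySq
import Pool.Agent.H43.G.R_seed8.H442R2.EHI.Sobolev

/-! BH, task T5: perturbation of the arguments (helper619) -/

namespace Pool.Agent.H619R2.BH

open Finset
open Pool.Agent.H469R2.NK (e norm_e e_add conj_e e_zero)
open Pool.Agent.H442R2.EHI

lemma norm_e_sub_one (x : ℝ) : ‖e x - 1‖ ≤ 2 * Real.pi * |x| := by
  unfold e
  have h := Real.norm_exp_I_mul_ofReal_sub_one_le (x := 2 * Real.pi * x)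
  rw [mul_comm Complex.I] at h
  refine h.trans ?_
  rw [Real.norm_eq_abs, abs_mul, abs_of_pos Real.two_pi_pos]

/-- one value of `k` -/
lemma one_k (N D G G1 p : ℕ) (hN : 1 ≤ N) (s s0 δ θ : ℝ) (S : Finset ℤ) (c : ℤ → ℂ) (W : ℝ)
    (hD : 1 ≤ D) (hG1 : 1 ≤ G1) (hp1 : G1 ≤ p) (hp2 : p ≤ G) (hs : |s| ≤ s0)
    (hDG : 2 * (D : ℝ) * G + s0 ≤ N) (hδ0 : 0 ≤ δ) (hδ : ∀ h ∈ S, |((h : ℝ) + θ) / N| ≤ δ)
    (hW : (N : ℝ) * ∑ h ∈ S, ‖c h‖ ^ 2 ≤ W) :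
    ∑ d ∈ Ioc D (2 * D), ‖poly N θ S c ((d : ℝ) * p + s) - poly N θ S c ((d : ℝ) * p)‖ ^ 2 ≤
      s0 ^ 2 * (40 * δ ^ 2 / G1 + 600 * δ ^ 3) * W := by
  have hs0 : 0 ≤ s0 := (abs_nonneg _).trans hs
  have hpi := Real.pi_pos
  have hG1R : (1 : ℝ) ≤ G1 := by exact_mod_cast hG1
  have hpR : (G1 : ℝ) ≤ p := by exact_mod_cast hp1
  have hpR2 : (p : ℝ) ≤ G := by exact_mod_cast hp2
  have hp0 : (0 : ℝ) < p := by linarith
  have hDR : (1 : ℝ) ≤ D := by exact_mod_cast hD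
  have hW0 : 0 ≤ W := le_trans (by positivity) hW
  set c' : ℤ → ℂ := fun h => c h * (e (-(s * (((h : ℝ) + θ) / N))) - 1) with hc'
  set P : ℝ → ℂ := poly N θ S c' with hP
  -- the difference
  have hdiff : ∀ y : ℝ, poly N θ S c (y + s) - poly N θ S c y = P y := by
    intro y
    rw [hP]
    unfold poly
    rw [← Finset.sum_sub_distrib]
    refine Finset.sum_congr rfl fun h _ => ?_
    have h1 : -((y + s) * (((h : ℝ) + θ) / N)) =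
        -(s * (((h : ℝ) + θ) / N)) + -(y * (((h : ℝ) + θ) / N)) := by ring
    rw [h1, e_add, hc']
    ring
  have hc'n : (N : ℝ) * ∑ h ∈ S, ‖c' h‖ ^ 2 ≤ (2 * Real.pi * (s0 * δ)) ^ 2 * W := by
    have h1 : ∀ h ∈ S, ‖c' h‖ ^ 2 ≤ (2 * Real.pi * (s0 * δ)) ^ 2 * ‖c h‖ ^ 2 := by
      intro h hh
      rw [hc', norm_mul, mul_pow, mul_comm]
      refine mul_le_mul_of_nonneg_right ?_ (by positivity)
      refine pow_le_pow_left₀ (norm_nonneg _) ?_ 2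
      refine (norm_e_sub_one _).trans ?_
      refine mul_le_mul_of_nonneg_left ?_ Real.two_pi_pos.le
      rw [abs_neg, abs_mul]
      exact mul_le_mul hs (hδ h hh) (abs_nonneg _) hs0
    calc (N : ℝ) * ∑ h ∈ S, ‖c' h‖ ^ 2 ≤
          N * ∑ h ∈ S, (2 * Real.pi * (s0 * δ)) ^ 2 * ‖c h‖ ^ 2 :=
          mul_le_mul_of_nonneg_left (Finset.sum_le_sum h1) (Nat.cast_nonneg _)
      _ = (2 * Real.pi * (s0 * δ)) ^ 2 * (N * ∑ h ∈ S, ‖c h‖ ^ 2) := by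
          rw [← Finset.mul_sum]
          ring
      _ ≤ _ := mul_le_mul_of_nonneg_left hW (by positivity)
  obtain ⟨hsm, hder⟩ := poly_deriv N hN θ S c' δ hδ
  rw [← hP] at hsm hder
  have hsm1 : ContDiff ℝ 1 P := hsm.of_le (by exact_mod_cast le_top)
  have hPc : Continuous P := hsm1.continuous
  have hPdc : Continuous (deriv P) := hsm1.continuous_deriv le_rfl
  set B : ℝ := (2 * Real.pi * (s0 * δ)) ^ 2 * W with hB
  have hB0 : 0 ≤ B := by positivity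
  have hI0 : ∫ y in (0 : ℝ)..N, ‖P y‖ ^ 2 ≤ B := by
    rw [hP, poly_sq N hN]
    exact hc'n
  have hI1 : ∫ y in (0 : ℝ)..N, ‖deriv P y‖ ^ 2 ≤ (2 * Real.pi * δ) ^ 2 * B :=
    hder.trans (mul_le_mul_of_nonneg_left hc'n (by positivity))
  -- Sobolev
  set g : ℝ → ℂ := fun u => P (u * p) with hg
  have hgs : ContDiff ℝ 1 g := hsm1.comp (contDiff_id.mul contDiff_const)
  have hgd : ∀ u, deriv g u = (p : ℝ) • deriv P (u * p) := by
    intro u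
    have h1 : HasDerivAt P (deriv P (u * p)) (u * p) :=
      (hsm1.differentiable one_ne_zero (u * p)).hasDerivAt
    have h2 : HasDerivAt (fun u : ℝ => u * (p : ℝ)) (p : ℝ) u := by
      simpa using (hasDerivAt_id u).mul_const (p : ℝ)
    exact (h1.scomp u h2).deriv
  have hle1 : (0 : ℝ) ≤ D * p := by positivity
  have hle2 : (D : ℝ) * p ≤ 2 * D * p := by nlinarith
  have hle3 : 2 * (D : ℝ) * p ≤ N := by
    have : 2 * (D : ℝ) * p ≤ 2 * D * G := by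
      refine mul_le_mul_of_nonneg_left hpR2 (by positivity)
    linarith
  have hJ0 : ∫ u in (D : ℝ)..(2 * D), ‖g u‖ ^ 2 ≤ B / p := by
    have h1 : ∫ u in (D : ℝ)..(2 * D), ‖g u‖ ^ 2 =
        (p : ℝ)⁻¹ • ∫ y in (D : ℝ) * p..(2 * D) * p, ‖P y‖ ^ 2 :=
      intervalIntegral.integral_comp_mul_right (fun y => ‖P y‖ ^ 2) hp0.ne'
    have h2 : ∫ y in (D : ℝ) * p..(2 * D) * p, ‖P y‖ ^ 2 ≤ ∫ y in (0 : ℝ)..N, ‖P y‖ ^ 2 := by
      refine intervalIntegral.integral_mono_interval hle1 hle2 hle3 ?_ ?_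
      · exact Filter.Eventually.of_forall fun y => by positivity
      · exact (hPc.norm.pow 2).intervalIntegrable _ _
    rw [h1, smul_eq_mul, div_eq_inv_mul]
    exact mul_le_mul_of_nonneg_left (h2.trans hI0) (by positivity)
  have hJ1 : ∫ u in (D : ℝ)..(2 * D), ‖deriv g u‖ ^ 2 ≤ p * ((2 * Real.pi * δ) ^ 2 * B) := by
    have h0 : ∀ u, ‖deriv g u‖ ^ 2 = (p : ℝ) ^ 2 * ‖deriv P (u * p)‖ ^ 2 := by
      intro u
      rw [hgd, norm_smul, mul_pow, Real.norm_eq_abs, sq_abs]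
    simp_rw [h0]
    rw [intervalIntegral.integral_const_mul]
    have h1 : ∫ u in (D : ℝ)..(2 * D), ‖deriv P (u * p)‖ ^ 2 =
        (p : ℝ)⁻¹ • ∫ y in (D : ℝ) * p..(2 * D) * p, ‖deriv P y‖ ^ 2 :=
      intervalIntegral.integral_comp_mul_right (fun y => ‖deriv P y‖ ^ 2) hp0.ne'
    have h2 : ∫ y in (D : ℝ) * p..(2 * D) * p, ‖deriv P y‖ ^ 2 ≤
        ∫ y in (0 : ℝ)..N, ‖deriv P y‖ ^ 2 := by
      refine intervalIntegral.integral_mono_interval hle1 hle2 hle3 ?_ ?_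
      · exact Filter.Eventually.of_forall fun y => by positivity
      · exact (hPdc.norm.pow 2).intervalIntegrable _ _
    rw [h1, smul_eq_mul]
    have h3 : (p : ℝ) ^ 2 * ((p : ℝ)⁻¹ * ∫ y in (D : ℝ) * p..(2 * D) * p, ‖deriv P y‖ ^ 2) =
        p * ∫ y in (D : ℝ) * p..(2 * D) * p, ‖deriv P y‖ ^ 2 := by
      field_simp
    rw [h3]
    exact mul_le_mul_of_nonneg_left (h2.trans hI1) hp0.le
  have hsob := sobolev D hD g hgs
  have hsum : ∑ d ∈ Ioc D (2 * D), ‖poly N θ S c ((d : ℝ) * p + s) -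
      poly N θ S c ((d : ℝ) * p)‖ ^ 2 = ∑ d ∈ Ioc D (2 * D), ‖g d‖ ^ 2 := by
    refine Finset.sum_congr rfl fun d _ => ?_
    rw [hdiff]
  rw [hsum]
  refine hsob.trans ?_
  have hs1 : √(∫ u in (D : ℝ)..(2 * D), ‖g u‖ ^ 2) * √(∫ u in (D : ℝ)..(2 * D), ‖deriv g u‖ ^ 2) ≤
      2 * Real.pi * δ * B := by
    calc _ ≤ √(B / p) * √(p * ((2 * Real.pi * δ) ^ 2 * B)) :=
          mul_le_mul (Real.sqrt_le_sqrt hJ0) (Real.sqrt_le_sqrt hJ1) (Real.sqrt_nonneg _)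
            (Real.sqrt_nonneg _)
      _ = √((2 * Real.pi * δ * B) ^ 2) := by
          rw [← Real.sqrt_mul (by positivity)]
          congr 1
          field_simp
      _ = 2 * Real.pi * δ * B := Real.sqrt_sq (by positivity)
  have hBp : B / p ≤ B / G1 := by
    exact div_le_div_of_nonneg_left hB0 (by linarith) hpR
  have hpi3 : Real.pi < 3.1416 := Real.pi_lt_d4
  have h4 : 4 * Real.pi ^ 2 ≤ 40 := by nlinarith
  have h5 : 16 * Real.pi ^ 3 ≤ 600 := by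
    have : Real.pi ^ 3 ≤ 3.1416 ^ 3 := pow_le_pow_left₀ hpi.le hpi3.le 3
    norm_num at this ⊢
    linarith
  have hfin1 : B / G1 ≤ s0 ^ 2 * (40 * δ ^ 2 / G1) * W := by
    have h6 : B / G1 = (4 * Real.pi ^ 2) * (s0 ^ 2 * δ ^ 2 * W / G1) := by
      rw [hB]
      ring
    have h7 : s0 ^ 2 * (40 * δ ^ 2 / G1) * W = 40 * (s0 ^ 2 * δ ^ 2 * W / G1) := by ring
    rw [h6, h7]
    exact mul_le_mul_of_nonneg_right h4 (by positivity)
  have hfin2 : 2 * (2 * Real.pi * δ * B) ≤ s0 ^ 2 * (600 * δ ^ 3) * W := by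
    have h6 : 2 * (2 * Real.pi * δ * B) = (16 * Real.pi ^ 3) * (s0 ^ 2 * δ ^ 3 * W) := by
      rw [hB]
      ring
    have h7 : s0 ^ 2 * (600 * δ ^ 3) * W = 600 * (s0 ^ 2 * δ ^ 3 * W) := by ring
    rw [h6, h7]
    exact mul_le_mul_of_nonneg_right h5 (by positivity)
  have h8 : s0 ^ 2 * (40 * δ ^ 2 / G1 + 600 * δ ^ 3) * W =
      s0 ^ 2 * (40 * δ ^ 2 / G1) * W + s0 ^ 2 * (600 * δ ^ 3) * W := by ring
  rw [h8]
  have h9 : 2 * √(∫ u in (D : ℝ)..(2 * D), ‖g u‖ ^ 2) *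
      √(∫ u in (D : ℝ)..(2 * D), ‖deriv g u‖ ^ 2) ≤ 2 * (2 * Real.pi * δ * B) := by
    rw [mul_assoc]
    exact mul_le_mul_of_nonneg_left hs1 (by norm_num)
  linarith

/-- T5 (RPert.lean). -/
theorem rpert (N D G G1 K : ℕ) (hN : 1 ≤ N) (T : Finset ℕ) (p : ℕ → ℕ) (s : ℕ → ℝ)
    (s0 δ θ : ℝ) (S : Finset ℤ) (c : ℤ → ℂ) (W : ℝ) (hD : 1 ≤ D) (hG1 : 1 ≤ G1)
    (hp : ∀ k ∈ T, G1 ≤ p k ∧ p k ≤ G) (hs : ∀ k ∈ T, |s k| ≤ s0) (hs0 : s0 ≤ D * G1)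
    (hDG : 2 * (D : ℝ) * G + s0 ≤ N) (hδ0 : 0 ≤ δ) (hδ : ∀ h ∈ S, |((h : ℝ) + θ) / N| ≤ δ)
    (hW : (N : ℝ) * ∑ h ∈ S, ‖c h‖ ^ 2 ≤ W) (hT : T.card ≤ K) :
    ∑ d ∈ Ioc D (2 * D), ‖∑ k ∈ T, (poly N θ S c ((d : ℝ) * p k + s k) -
      poly N θ S c ((d : ℝ) * p k))‖ ^ 2 ≤
      (K : ℝ) ^ 2 * s0 ^ 2 * (40 * δ ^ 2 / G1 + 600 * δ ^ 3) * W := by
  have hG1R : (1 : ℝ) ≤ G1 := by exact_mod_cast hG1
  have hW0 : 0 ≤ W := le_trans (by positivity) hW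
  set E : ℝ := s0 ^ 2 * (40 * δ ^ 2 / G1 + 600 * δ ^ 3) * W with hE
  have hE0 : 0 ≤ E := by positivity
  have hTK : (T.card : ℝ) ≤ K := by exact_mod_cast hT
  have h1 : ∀ d ∈ Ioc D (2 * D), ‖∑ k ∈ T, (poly N θ S c ((d : ℝ) * p k + s k) -
      poly N θ S c ((d : ℝ) * p k))‖ ^ 2 ≤ T.card * ∑ k ∈ T,
        ‖poly N θ S c ((d : ℝ) * p k + s k) - poly N θ S c ((d : ℝ) * p k)‖ ^ 2 := by
    intro d _
    have h2 := norm_sum_le T (fun k => poly N θ S c ((d : ℝ) * p k + s k) -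
      poly N θ S c ((d : ℝ) * p k))
    calc _ ≤ (∑ k ∈ T, ‖poly N θ S c ((d : ℝ) * p k + s k) -
          poly N θ S c ((d : ℝ) * p k)‖) ^ 2 := pow_le_pow_left₀ (norm_nonneg _) h2 2
      _ ≤ _ := sq_sum_le_card_mul_sum_sq
  calc _ ≤ ∑ d ∈ Ioc D (2 * D), T.card * ∑ k ∈ T,
        ‖poly N θ S c ((d : ℝ) * p k + s k) - poly N θ S c ((d : ℝ) * p k)‖ ^ 2 :=
        Finset.sum_le_sum h1
    _ = T.card * ∑ k ∈ T, ∑ d ∈ Ioc D (2 * D),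
        ‖poly N θ S c ((d : ℝ) * p k + s k) - poly N θ S c ((d : ℝ) * p k)‖ ^ 2 := by
        rw [← Finset.mul_sum, Finset.sum_comm]
    _ ≤ T.card * ∑ _k ∈ T, E := by
        refine mul_le_mul_of_nonneg_left (Finset.sum_le_sum fun k hk => ?_) (Nat.cast_nonneg _)
        exact one_k N D G G1 (p k) hN (s k) s0 δ θ S c W hD hG1 (hp k hk).1 (hp k hk).2 (hs k hk)
          hDG hδ0 hδ hW
    _ = (T.card : ℝ) ^ 2 * E := by
        rw [Finset.sum_const, nsmul_eq_mul]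
        ring
    _ ≤ (K : ℝ) ^ 2 * E := by
        refine mul_le_mul_of_nonneg_right ?_ hE0
        exact pow_le_pow_left₀ (Nat.cast_nonneg _) hTK 2
    _ = _ := by
        rw [hE]
        ring

end Pool.Agent.H619R2.BH
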