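import Pool.Agent.H43.G.R_seed8.H300R2.FB.Defs

/-! FB, task F9: rounding to rays (helper619) -/

namespace Pool.Agent.H619R2.FB9

open Finset
open Pool.Agent.H300R2.FB

/-- the rounded coefficients -/
def rd (j D d : ℕ) (r : Fin (j - 1) → ℤ) : Fin (j - 1) → ℤ := fun i => r i * D / d

lemma rd_mem (j D d : ℕ) (hDd : D ≤ d) (hd : 1 ≤ d) (H : Fin (j - 1) → ℕ) (r : Fin (j - 1) → ℤ)
    (hr : r ∈ bx j H) : rd j D d r ∈ bx j H := by
  unfold bx at hr ⊢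
  rw [Fintype.mem_piFinset] at hr ⊢
  intro i
  have h := Finset.mem_Icc.1 (hr i)
  rw [Finset.mem_Icc]
  unfold rd
  have hd0 : (0 : ℤ) < d := by exact_mod_cast hd
  have hDd' : (D : ℤ) ≤ d := by exact_mod_cast hDd
  have hD0 : (0 : ℤ) ≤ D := by positivity
  have hH0 : (0 : ℤ) ≤ H i := by positivity
  constructor
  · rw [Int.le_ediv_iff_mul_le hd0]
    nlinarith [h.1, h.2, mul_nonneg hH0 hD0, mul_nonneg hH0 (sub_nonneg.2 hDd')]
  · have h1 : r i * D / d ≤ (H i : ℤ) * d / d := by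
      apply Int.ediv_le_ediv hd0
      nlinarith [h.1, h.2, mul_nonneg hH0 hD0, mul_nonneg hH0 (sub_nonneg.2 hDd')]
    rwa [Int.mul_ediv_cancel _ hd0.ne'] at h1

lemma fib_one (D d : ℕ) (hD : 1 ≤ D) (hd2 : d ≤ 2 * D) (hd : 1 ≤ d) (I : Finset ℤ) (y : ℤ)
    (hI : ∀ m ∈ I, m * D / d = y) : I.card ≤ 2 := by
  rcases I.eq_empty_or_nonempty with h | h
  · subst h; simp
  · have hd0 : (0 : ℤ) < d := by exact_mod_cast hd
    have hD0 : (0 : ℤ) < D := by exact_mod_cast hD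
    have hd2' : (d : ℤ) ≤ 2 * D := by exact_mod_cast hd2
    have h1 : I ⊆ Finset.Icc (I.min' h) (I.min' h + 1) := by
      intro m hm
      rw [Finset.mem_Icc]
      refine ⟨Finset.min'_le _ _ hm, ?_⟩
      have e1 := hI _ (Finset.min'_mem I h)
      have e2 := hI _ hm
      have f1 : y * d ≤ I.min' h * D := by
        rw [← e1]; exact Int.ediv_mul_le _ hd0.ne'
      have f2 : m * D < (y + 1) * d := by
        rw [← e2]; exact Int.lt_ediv_add_one_mul_self _ hd0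
      by_contra hc
      rw [not_le] at hc
      have hc' : I.min' h + 2 ≤ m := by omega
      have : (I.min' h + 2) * D ≤ m * D := mul_le_mul_of_nonneg_right hc' hD0.le
      nlinarith
    have h2 := Finset.card_le_card h1
    rw [Int.card_Icc] at h2
    omega

lemma fib (j D d : ℕ) (hD : 1 ≤ D) (hd2 : d ≤ 2 * D) (hd : 1 ≤ d) (H : Fin (j - 1) → ℕ)
    (y : Fin (j - 1) → ℤ) : ((bx j H).filter (fun r => rd j D d r = y)).card ≤ 2 ^ (j - 1) := by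
  have h1 : (bx j H).filter (fun r => rd j D d r = y) ⊆
      Fintype.piFinset (fun i => (Finset.Icc (-(H i : ℤ)) (H i)).filter (fun m => m * D / d = y i)) := by
    intro r hr
    rw [Finset.mem_filter] at hr
    unfold bx at hr
    rw [Fintype.mem_piFinset] at hr ⊢
    intro i
    rw [Finset.mem_filter]
    refine ⟨hr.1 i, ?_⟩
    rw [← hr.2]
    rfl
  refine (Finset.card_le_card h1).trans ?_
  rw [Fintype.card_piFinset]
  refine (Finset.prod_le_prod' (g := fun _ => 2) fun i _ => ?_).trans ?_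
  · exact fib_one D d hD hd2 hd _ (y i) fun m hm => (Finset.mem_filter.1 hm).2
  · rw [Finset.prod_const, Finset.card_univ, Fintype.card_fin]

lemma fib_sum (j D d : ℕ) (hD : 1 ≤ D) (hDd : D ≤ d) (hd2 : d ≤ 2 * D) (hd : 1 ≤ d)
    (H : Fin (j - 1) → ℕ) (g : (Fin (j - 1) → ℤ) → ℝ) (hg : ∀ r, 0 ≤ g r) :
    ∑ r ∈ bx j H, g (rd j D d r) ≤ 2 ^ (j - 1) * ∑ r ∈ bx j H, g r := by
  rw [← Finset.sum_fiberwise_of_maps_to (fun r hr => rd_mem j D d hDd hd H r hr), Finset.mul_sum]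
  refine Finset.sum_le_sum fun y _ => ?_
  have h1 : ∑ r ∈ (bx j H).filter (fun r => rd j D d r = y), g (rd j D d r) =
      (((bx j H).filter (fun r => rd j D d r = y)).card : ℝ) * g y := by
    rw [← nsmul_eq_mul, ← Finset.sum_const]
    exact Finset.sum_congr rfl fun r hr => by rw [(Finset.mem_filter.1 hr).2]
  rw [h1]
  refine mul_le_mul_of_nonneg_right ?_ (hg y)
  exact_mod_cast fib j D d hD hd2 hd H y

/-- the shift produced by rounding -/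
noncomputable def s2 (j D : ℕ) (r : Fin (j - 1) → ℤ) (k d : ℕ) : ℝ :=
  ∑ i : Fin (j - 1), ((d : ℝ) * (rd j D d r i : ℝ) / D - r i) * (k : ℝ) ^ ((i : ℕ) + 1)

lemma s2_eq (j D : ℕ) (r : Fin (j - 1) → ℤ) (k d : ℕ) :
    (d : ℝ) * pw j (fun i => (rd j D d r i : ℝ) / D) k =
      (d : ℝ) * (k : ℝ) ^ j + tR j (fun i => (r i : ℝ)) k + s2 j D r k d := by
  unfold pw tR s2
  rw [mul_add, add_assoc, ← Finset.sum_add_distrib, Finset.mul_sum]
  congr 1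
  refine Finset.sum_congr rfl fun i _ => ?_
  ring

lemma s2_le (j D : ℕ) (hD : 1 ≤ D) (r : Fin (j - 1) → ℤ) (k d K : ℕ) (hk1 : 1 ≤ k) (hk : k ≤ K)
    (hd : 1 ≤ d) (hd2 : d ≤ 2 * D) :
    |s2 j D r k d| ≤ 2 * (j : ℝ) * (K : ℝ) ^ (j - 1) := by
  have hDR : (1 : ℝ) ≤ D := by exact_mod_cast hD
  have hD0 : (0 : ℝ) < D := by linarith
  have hd0 : (0 : ℤ) < d := by exact_mod_cast hd
  have hd2R : (d : ℝ) ≤ 2 * D := by exact_mod_cast hd2
  have hk1R : (1 : ℝ) ≤ k := by exact_mod_cast hk1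
  have hkR : (k : ℝ) ≤ K := by exact_mod_cast hk
  have hKR : (1 : ℝ) ≤ K := hk1R.trans hkR
  unfold s2
  refine (Finset.abs_sum_le_sum_abs _ _).trans ?_
  have h1 : ∀ i ∈ (Finset.univ : Finset (Fin (j - 1))),
      |((d : ℝ) * (rd j D d r i : ℝ) / D - r i) * (k : ℝ) ^ ((i : ℕ) + 1)| ≤
        2 * (K : ℝ) ^ (j - 1) := by
    intro i _
    rw [abs_mul]
    have e1 : rd j D d r i * d ≤ r i * D := Int.ediv_mul_le _ hd0.ne'
    have e2 : r i * D < (rd j D d r i + 1) * d := Int.lt_ediv_add_one_mul_self _ hd0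
    have e1R : (rd j D d r i : ℝ) * d ≤ r i * D := by exact_mod_cast e1
    have e2R : (r i : ℝ) * D ≤ ((rd j D d r i : ℝ) + 1) * d := by exact_mod_cast e2.le
    have h2 : |(d : ℝ) * (rd j D d r i : ℝ) / D - r i| ≤ 2 := by
      rw [abs_le]
      constructor
      · have : (r i : ℝ) - 2 ≤ (d : ℝ) * (rd j D d r i : ℝ) / D := by
          rw [le_div_iff₀ hD0]; nlinarith
        linarith
      · have : (d : ℝ) * (rd j D d r i : ℝ) / D ≤ r i := by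
          rw [div_le_iff₀ hD0]; nlinarith
        linarith
    have h3 : |(k : ℝ) ^ ((i : ℕ) + 1)| ≤ (K : ℝ) ^ (j - 1) := by
      rw [abs_of_nonneg (by positivity)]
      have hi := i.2
      calc (k : ℝ) ^ ((i : ℕ) + 1) ≤ (K : ℝ) ^ ((i : ℕ) + 1) :=
            pow_le_pow_left₀ (by positivity) hkR _
        _ ≤ (K : ℝ) ^ (j - 1) := pow_le_pow_right₀ hKR (by omega)
    exact mul_le_mul h2 h3 (abs_nonneg _) (by norm_num)
  refine (Finset.sum_le_sum h1).trans ?_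
  rw [Finset.sum_const, Finset.card_univ, Fintype.card_fin, nsmul_eq_mul]
  have hj : ((j - 1 : ℕ) : ℝ) ≤ j := by exact_mod_cast Nat.sub_le j 1
  have : 0 ≤ (K : ℝ) ^ (j - 1) := by positivity
  nlinarith

lemma three (A B C : ℂ) : ‖A‖ ^ 2 ≤ 3 * ‖B‖ ^ 2 + 3 * ‖A - C‖ ^ 2 + 3 * ‖B - C‖ ^ 2 := by
  have h : ‖A‖ ≤ ‖B‖ + ‖A - C‖ + ‖B - C‖ := by
    have e : A = B + (A - C) - (B - C) := by ring
    calc ‖A‖ = ‖B + (A - C) - (B - C)‖ := by rw [← e]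
      _ ≤ ‖B + (A - C)‖ + ‖B - C‖ := norm_sub_le _ _
      _ ≤ ‖B‖ + ‖A - C‖ + ‖B - C‖ := by
          have := norm_add_le B (A - C)
          linarith
  have h0 := norm_nonneg A
  nlinarith [sq_nonneg (‖B‖ - ‖A - C‖), sq_nonneg (‖B‖ - ‖B - C‖),
    sq_nonneg (‖A - C‖ - ‖B - C‖), norm_nonneg B, norm_nonneg (A - C), norm_nonneg (B - C)]

/-- F9. Rounding to rays. -/
theorem round_box (j : ℕ) (D K : ℕ) (hD : 1 ≤ D) (hK : 1 ≤ K) (H : Fin (j - 1) → ℕ)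
    (T : Finset ℕ) (hT : T ⊆ Icc 1 K) (Ψ : ℝ → ℂ) (sg : ℕ → ℝ) (s1 Err : ℝ)
    (hsg : ∀ k ∈ T, |sg k| ≤ s1) (hs1 : 2 * (j : ℝ) * (K : ℝ) ^ (j - 1) ≤ s1)
    (hErr : ∀ r ∈ bx j H, ∀ s : ℕ → ℕ → ℝ, (∀ k ∈ T, ∀ d ∈ Ioc D (2 * D), |s k d| ≤ s1) →
      ∑ d ∈ Ioc D (2 * D), ‖∑ k ∈ T, (Ψ ((d : ℝ) * (k : ℝ) ^ j + tR j (fun i => (r i : ℝ)) k + s k d)
        - Ψ ((d : ℝ) * (k : ℝ) ^ j + tR j (fun i => (r i : ℝ)) k))‖ ^ 2 ≤ Err) :
    ∑ r ∈ bx j H, ∑ d ∈ Ioc D (2 * D),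
      ‖∑ k ∈ T, Ψ ((d : ℝ) * (k : ℝ) ^ j + tR j (fun i => (r i : ℝ)) k + sg k)‖ ^ 2 ≤
    3 * 2 ^ (j - 1) * ∑ r ∈ bx j H, ∑ d ∈ Ioc D (2 * D),
      ‖∑ k ∈ T, Ψ ((d : ℝ) * pw j (fun i => (r i : ℝ) / D) k)‖ ^ 2 +
    6 * ((bx j H).card : ℝ) * Err := by
  set A : (Fin (j - 1) → ℤ) → ℕ → ℂ := fun r d =>
    ∑ k ∈ T, Ψ ((d : ℝ) * (k : ℝ) ^ j + tR j (fun i => (r i : ℝ)) k + sg k) with hA
  set B : (Fin (j - 1) → ℤ) → ℕ → ℂ := fun r d =>
    ∑ k ∈ T, Ψ ((d : ℝ) * pw j (fun i => (r i : ℝ) / D) k) with hB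
  set C : (Fin (j - 1) → ℤ) → ℕ → ℂ := fun r d =>
    ∑ k ∈ T, Ψ ((d : ℝ) * (k : ℝ) ^ j + tR j (fun i => (r i : ℝ)) k) with hC
  have h1 : ∀ r ∈ bx j H, ∑ d ∈ Ioc D (2 * D), ‖A r d - C r d‖ ^ 2 ≤ Err := by
    intro r hr
    have h := hErr r hr (fun k _ => sg k) (fun k hk _ _ => hsg k hk)
    refine le_trans (le_of_eq ?_) h
    refine Finset.sum_congr rfl fun d _ => ?_
    rw [hA, hC]
    dsimp only
    rw [← Finset.sum_sub_distrib]
  have h2 : ∀ r ∈ bx j H, ∑ d ∈ Ioc D (2 * D), ‖B (rd j D d r) d - C r d‖ ^ 2 ≤ Err := by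
    intro r hr
    have h := hErr r hr (s2 j D r) (fun k hk d hd => by
      have hk' := Finset.mem_Icc.1 (hT hk)
      have hd' := Finset.mem_Ioc.1 hd
      exact (s2_le j D hD r k d K hk'.1 hk'.2 (by omega) hd'.2).trans hs1)
    refine le_trans (le_of_eq ?_) h
    refine Finset.sum_congr rfl fun d _ => ?_
    rw [hB, hC]
    dsimp only
    rw [← Finset.sum_sub_distrib]
    congr 2
    refine Finset.sum_congr rfl fun k _ => ?_
    rw [s2_eq]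
  have h3 : ∑ r ∈ bx j H, ∑ d ∈ Ioc D (2 * D), ‖B (rd j D d r) d‖ ^ 2 ≤
      2 ^ (j - 1) * ∑ r ∈ bx j H, ∑ d ∈ Ioc D (2 * D), ‖B r d‖ ^ 2 := by
    rw [Finset.sum_comm, Finset.sum_comm (s := bx j H) (t := Ioc D (2 * D))
      (f := fun r d => ‖B r d‖ ^ 2), Finset.mul_sum]
    refine Finset.sum_le_sum fun d hd => ?_
    have hd' := Finset.mem_Ioc.1 hd
    exact fib_sum j D d hD hd'.1.le hd'.2 (by omega) H (fun r => ‖B r d‖ ^ 2)
      (fun r => by positivity)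
  calc ∑ r ∈ bx j H, ∑ d ∈ Ioc D (2 * D), ‖A r d‖ ^ 2
      ≤ ∑ r ∈ bx j H, ∑ d ∈ Ioc D (2 * D), (3 * ‖B (rd j D d r) d‖ ^ 2 +
        3 * ‖A r d - C r d‖ ^ 2 + 3 * ‖B (rd j D d r) d - C r d‖ ^ 2) :=
        Finset.sum_le_sum fun r _ => Finset.sum_le_sum fun d _ => three _ _ _
    _ = 3 * (∑ r ∈ bx j H, ∑ d ∈ Ioc D (2 * D), ‖B (rd j D d r) d‖ ^ 2) +
        3 * (∑ r ∈ bx j H, ∑ d ∈ Ioc D (2 * D), ‖A r d - C r d‖ ^ 2) +
        3 * (∑ r ∈ bx j H, ∑ d ∈ Ioc D (2 * D), ‖B (rd j D d r) d - C r d‖ ^ 2) := by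
        simp only [Finset.sum_add_distrib, Finset.mul_sum]
    _ ≤ 3 * (2 ^ (j - 1) * ∑ r ∈ bx j H, ∑ d ∈ Ioc D (2 * D), ‖B r d‖ ^ 2) +
        3 * (((bx j H).card : ℝ) * Err) + 3 * (((bx j H).card : ℝ) * Err) := by
        have e1 : ∑ r ∈ bx j H, ∑ d ∈ Ioc D (2 * D), ‖A r d - C r d‖ ^ 2 ≤
            ((bx j H).card : ℝ) * Err := by
          refine (Finset.sum_le_sum h1).trans ?_
          rw [Finset.sum_const, nsmul_eq_mul]
        have e2 : ∑ r ∈ bx j H, ∑ d ∈ Ioc D (2 * D), ‖B (rd j D d r) d - C r d‖ ^ 2 ≤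
            ((bx j H).card : ℝ) * Err := by
          refine (Finset.sum_le_sum h2).trans ?_
          rw [Finset.sum_const, nsmul_eq_mul]
        linarith
    _ = _ := by ring

end Pool.Agent.H619R2.FB9
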