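import Pool.Agent.H43.G.R_seed8.H300R2.FB.Defs

/-! FB, task F5: derivatives of the logarithm of a perturbed monomial (helper619) -/

namespace Pool.Agent.H619R2.FB5

open Finset
open Pool.Agent.H300R2.FB

/-- the region of positivity -/
def U (j : ℕ) : Set ((Fin (j - 1) → ℝ) × ℝ) := {x | 0 < pw j x.1 x.2}

lemma pw_contDiff (j : ℕ) : ContDiff ℝ ⊤ (fun x : (Fin (j - 1) → ℝ) × ℝ => pw j x.1 x.2) := by
  unfold pw tR
  refine (contDiff_snd.pow j).add (ContDiff.sum fun i _ => ?_)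
  exact ((contDiff_apply ℝ ℝ i).comp contDiff_fst).mul (contDiff_snd.pow _)

lemma U_open (j : ℕ) : IsOpen (U j) :=
  isOpen_lt continuous_const (pw_contDiff j).continuous

/-- iterated derivatives in the last variable -/
noncomputable def Gm (j : ℕ) : ℕ → (Fin (j - 1) → ℝ) × ℝ → ℝ
  | 0 => fun x => Real.log (pw j x.1 x.2)
  | m + 1 => fun x => fderiv ℝ (Gm j m) x (0, 1)

lemma Gm_contDiffOn (j m : ℕ) : ∀ n : ℕ, ContDiffOn ℝ n (Gm j m) (U j) := by
  induction m with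
  | zero =>
    intro n
    show ContDiffOn ℝ n (fun x : (Fin (j - 1) → ℝ) × ℝ => Real.log (pw j x.1 x.2)) (U j)
    refine ContDiffOn.log (((pw_contDiff j).of_le le_top).contDiffOn) fun x hx => ?_
    exact (show (0 : ℝ) < _ from hx).ne'
  | succ m ih =>
    intro n
    have h := ih (n + 1)
    have h2 : ContDiffOn ℝ n (fderiv ℝ (Gm j m)) (U j) :=
      h.fderiv_of_isOpen (U_open j) (by exact_mod_cast le_refl _)
    exact h2.clm_apply contDiffOn_const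

lemma Gm_hasDerivAt (j m : ℕ) (β : Fin (j - 1) → ℝ) (s : ℝ) (h : (β, s) ∈ U j) :
    HasDerivAt (fun s => Gm j m (β, s)) (Gm j (m + 1) (β, s)) s := by
  have h1 : DifferentiableAt ℝ (Gm j m) (β, s) :=
    (((Gm_contDiffOn j m 1).contDiffAt ((U_open j).mem_nhds h)).differentiableAt (by norm_num))
  have h2 : HasDerivAt (fun s : ℝ => ((β, s) : (Fin (j - 1) → ℝ) × ℝ)) (0, 1) s :=
    (hasDerivAt_const s β).prodMk (hasDerivAt_id s)
  exact h1.hasFDerivAt.comp_hasDerivAt s h2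

lemma pw_zero (j : ℕ) (s : ℝ) : pw j (0 : Fin (j - 1) → ℝ) s = s ^ j := by
  simp [pw, tR]

lemma mem_U_zero (j : ℕ) (s : ℝ) (hs : 0 < s) : ((0 : Fin (j - 1) → ℝ), s) ∈ U j := by
  show 0 < pw j (0 : Fin (j - 1) → ℝ) s
  rw [pw_zero]
  positivity

lemma Gm_zero (j m : ℕ) : ∀ s : ℝ, 0 < s → Gm j (m + 1) ((0 : Fin (j - 1) → ℝ), s) =
    (-1) ^ m * (j * (m.factorial : ℝ)) * (s ^ (m + 1))⁻¹ := by
  induction m with
  | zero =>
    intro s hs
    have h1 := Gm_hasDerivAt j 0 0 s (mem_U_zero j s hs)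
    have h2 : HasDerivAt (fun s => Gm j 0 ((0 : Fin (j - 1) → ℝ), s)) ((j : ℝ) * s⁻¹) s := by
      have h3 : (fun s => Gm j 0 ((0 : Fin (j - 1) → ℝ), s)) = fun s => (j : ℝ) * Real.log s := by
        funext s
        show Real.log (pw j (0 : Fin (j - 1) → ℝ) s) = _
        rw [pw_zero, Real.log_pow]
      rw [h3]
      exact (Real.hasDerivAt_log hs.ne').const_mul _
    rw [h1.unique h2]
    simp
  | succ m ih =>
    intro s hs
    have h1 := Gm_hasDerivAt j (m + 1) 0 s (mem_U_zero j s hs)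
    have h2 : HasDerivAt (fun s : ℝ => (-1) ^ m * (j * (m.factorial : ℝ)) * (s ^ (m + 1))⁻¹)
        ((-1) ^ m * (j * (m.factorial : ℝ)) *
          (-(((m + 1 : ℕ) : ℝ) * s ^ m) / (s ^ (m + 1)) ^ 2)) s := by
      have h3 : HasDerivAt (fun s : ℝ => s ^ (m + 1)) (((m + 1 : ℕ) : ℝ) * s ^ m) s := by
        simpa using hasDerivAt_pow (m + 1) s
      exact (h3.inv (by positivity)).const_mul _
    have h4 : HasDerivAt (fun s => Gm j (m + 1) ((0 : Fin (j - 1) → ℝ), s))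
        ((-1) ^ m * (j * (m.factorial : ℝ)) *
          (-(((m + 1 : ℕ) : ℝ) * s ^ m) / (s ^ (m + 1)) ^ 2)) s := by
      refine h2.congr_of_eventuallyEq ?_
      filter_upwards [lt_mem_nhds hs] with s' hs'
      exact ih s' hs'
    rw [h1.unique h4, Nat.factorial_succ]
    push_cast
    field_simp
    ring

/-- the good set -/
def V (j M : ℕ) (c0 C0 : ℝ) : Set ((Fin (j - 1) → ℝ) × ℝ) :=
  ⋂ m ∈ Finset.range M, (U j ∩ Gm j (m + 1) ⁻¹' {y | c0 < (-1) ^ m * y ∧ (-1) ^ m * y < C0})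

lemma V_open (j M : ℕ) (c0 C0 : ℝ) : IsOpen (V j M c0 C0) := by
  refine isOpen_biInter_finset fun m _ => ?_
  refine (Gm_contDiffOn j (m + 1) 0).continuousOn.isOpen_inter_preimage (U_open j) ?_
  exact (isOpen_lt continuous_const (continuous_const.mul continuous_id)).inter
    (isOpen_lt (continuous_const.mul continuous_id) continuous_const)

/-- F5. Derivatives of the logarithm of a perturbed monomial. -/
theorem log_chain (j : ℕ) (hj : 1 ≤ j) (M : ℕ) : ∃ κ : ℝ, 0 < κ ∧ ∃ c0 C0 : ℝ, 0 < c0 ∧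
    ∀ (J : ℕ) (b : Fin (j - 1) → ℝ), 1 ≤ J →
    (∀ i, |b i| ≤ κ * (J : ℝ) ^ (j - 1 - (i : ℕ))) → ∃ φ : ℕ → ℝ → ℝ,
    (∀ t ∈ Set.Icc (J : ℝ) (3 * J), φ 0 t = Real.log (pw j b t)) ∧
    (∀ m ≤ M, ∀ t ∈ Set.Icc (J : ℝ) (3 * J), HasDerivAt (φ m) (φ (m + 1) t) t) ∧
    (∀ m, 1 ≤ m → m ≤ M → ∀ t ∈ Set.Icc (J : ℝ) (3 * J),
      c0 ≤ (-1) ^ (m + 1) * φ m t * (J : ℝ) ^ m ∧ (-1) ^ (m + 1) * φ m t * (J : ℝ) ^ m ≤ C0) := by
  set c0 : ℝ := ((3 : ℝ) ^ M)⁻¹ / 2 with hc0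
  set C0 : ℝ := (j : ℝ) * (M.factorial : ℝ) + 1 with hC0
  have hjR : (1 : ℝ) ≤ j := by exact_mod_cast hj
  have hc0pos : 0 < c0 := by positivity
  -- the compact set
  have hsub : ({0} : Set (Fin (j - 1) → ℝ)) ×ˢ Set.Icc (1 : ℝ) 3 ⊆ U j ∩ V j M c0 C0 := by
    rintro ⟨β, s⟩ ⟨hβ, hs⟩
    have hβ0 : β = 0 := hβ
    subst hβ0
    have hs0 : 0 < s := lt_of_lt_of_le one_pos hs.1
    have hU := mem_U_zero j s hs0
    refine ⟨hU, ?_⟩
    unfold V
    rw [Set.mem_iInter₂]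
    intro m hm
    rw [Finset.mem_range] at hm
    refine ⟨hU, ?_⟩
    show c0 < (-1) ^ m * Gm j (m + 1) ((0 : Fin (j - 1) → ℝ), s) ∧
      (-1) ^ m * Gm j (m + 1) ((0 : Fin (j - 1) → ℝ), s) < C0
    have hval : (-1 : ℝ) ^ m * Gm j (m + 1) ((0 : Fin (j - 1) → ℝ), s) =
        (j * (m.factorial : ℝ)) * (s ^ (m + 1))⁻¹ := by
      rw [Gm_zero j m s hs0]
      have : (-1 : ℝ) ^ m * (-1) ^ m = 1 := by
        rw [← mul_pow]; norm_num
      calc (-1 : ℝ) ^ m * ((-1) ^ m * (j * (m.factorial : ℝ)) * (s ^ (m + 1))⁻¹)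
          = ((-1 : ℝ) ^ m * (-1) ^ m) * ((j * (m.factorial : ℝ)) * (s ^ (m + 1))⁻¹) := by ring
        _ = _ := by rw [this, one_mul]
    rw [hval]
    have hf1 : (1 : ℝ) ≤ (m.factorial : ℝ) := by exact_mod_cast Nat.factorial_pos m
    constructor
    · have h1 : ((3 : ℝ) ^ M)⁻¹ ≤ (s ^ (m + 1))⁻¹ := by
        apply inv_anti₀ (by positivity)
        calc s ^ (m + 1) ≤ 3 ^ (m + 1) := pow_le_pow_left₀ hs0.le hs.2 _
          _ ≤ 3 ^ M := pow_le_pow_right₀ (by norm_num) hm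
      have h2 : (1 : ℝ) ≤ j * (m.factorial : ℝ) := by nlinarith
      have h3 : 0 < ((3 : ℝ) ^ M)⁻¹ := by positivity
      calc c0 < ((3 : ℝ) ^ M)⁻¹ := by rw [hc0]; linarith
        _ ≤ (s ^ (m + 1))⁻¹ := h1
        _ = 1 * (s ^ (m + 1))⁻¹ := (one_mul _).symm
        _ ≤ _ := mul_le_mul_of_nonneg_right h2 (by positivity)
    · have h1 : (s ^ (m + 1))⁻¹ ≤ 1 := inv_le_one_of_one_le₀ (one_le_pow₀ hs.1)
      have h2 : (m.factorial : ℝ) ≤ (M.factorial : ℝ) := by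
        exact_mod_cast Nat.factorial_le hm.le
      calc (j * (m.factorial : ℝ)) * (s ^ (m + 1))⁻¹ ≤ (j * (m.factorial : ℝ)) * 1 :=
            mul_le_mul_of_nonneg_left h1 (by positivity)
        _ ≤ (j : ℝ) * (M.factorial : ℝ) := by
            rw [mul_one]; exact mul_le_mul_of_nonneg_left h2 (by positivity)
        _ < C0 := by rw [hC0]; linarith
  obtain ⟨u, v, hu, -, h0u, hv, huv⟩ := generalized_tube_lemma isCompact_singleton isCompact_Icc
    ((U_open j).inter (V_open j M c0 C0)) hsub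
  obtain ⟨κ', hκ', hball⟩ := Metric.isOpen_iff.1 hu 0 (h0u rfl)
  refine ⟨κ' / 2, by positivity, c0, C0, hc0pos, ?_⟩
  intro J b hJ hb
  have hJR : (1 : ℝ) ≤ J := by exact_mod_cast hJ
  have hJ0 : (0 : ℝ) < J := by linarith
  set β : Fin (j - 1) → ℝ := fun i => b i / (J : ℝ) ^ (j - 1 - (i : ℕ)) with hβ
  have hβu : β ∈ u := by
    apply hball
    rw [Metric.mem_ball, dist_zero_right]
    refine lt_of_le_of_lt ((pi_norm_le_iff_of_nonneg (by positivity)).2 fun i => ?_)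
      (half_lt_self hκ')
    rw [hβ, Real.norm_eq_abs, abs_div, abs_of_pos (by positivity : (0:ℝ) < (J : ℝ) ^ (j - 1 - (i : ℕ))),
      div_le_iff₀ (by positivity)]
    exact hb i
  have hmem : ∀ t ∈ Set.Icc (J : ℝ) (3 * J), (β, t / J) ∈ U j ∩ V j M c0 C0 := by
    intro t ht
    apply huv
    refine ⟨hβu, hv ⟨?_, ?_⟩⟩
    · rw [le_div_iff₀ hJ0]; linarith [ht.1]
    · rw [div_le_iff₀ hJ0]; exact ht.2
  have hscale : ∀ t : ℝ, pw j b t = (J : ℝ) ^ j * pw j β (t / J) := by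
    intro t
    unfold pw tR
    rw [mul_add, div_pow, mul_div_cancel₀ _ (by positivity), Finset.mul_sum]
    congr 1
    refine Finset.sum_congr rfl fun i _ => ?_
    rw [hβ]
    have hi := i.2
    have e1 : (J : ℝ) ^ j = (J : ℝ) ^ (j - 1 - (i : ℕ)) * (J : ℝ) ^ ((i : ℕ) + 1) := by
      rw [← pow_add]; congr 1; omega
    dsimp only
    rw [e1, div_pow]
    field_simp
  refine ⟨fun m t => (if m = 0 then (j : ℝ) * Real.log J else 0) + Gm j m (β, t / J) / (J : ℝ) ^ m,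
    ?_, ?_, ?_⟩
  · intro t ht
    have hpos : 0 < pw j β (t / J) := (hmem t ht).1
    show (if (0 : ℕ) = 0 then (j : ℝ) * Real.log J else 0) + Real.log (pw j β (t / J)) / (J : ℝ) ^ 0 = _
    rw [if_pos rfl, pow_zero, div_one, hscale t, Real.log_mul (by positivity) hpos.ne',
      Real.log_pow]
  · intro m hm t ht
    have h1 := Gm_hasDerivAt j m β (t / J) (hmem t ht).1
    have h2 : HasDerivAt (fun t : ℝ => t / J) (1 / J) t := (hasDerivAt_id t).div_const _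
    have h3 := (HasDerivAt.comp t h1 h2).div_const ((J : ℝ) ^ m)
    have h4 := h3.const_add (if m = 0 then (j : ℝ) * Real.log J else 0)
    refine h4.congr_deriv ?_
    show Gm j (m + 1) (β, t / J) * (1 / J) / (J : ℝ) ^ m =
      (if m + 1 = 0 then (j : ℝ) * Real.log J else 0) + Gm j (m + 1) (β, t / J) / (J : ℝ) ^ (m + 1)
    rw [if_neg (Nat.succ_ne_zero m), zero_add, pow_succ]
    field_simp
  · intro m hm1 hm2 t ht
    obtain ⟨m, rfl⟩ : ∃ m', m = m' + 1 := ⟨m - 1, by omega⟩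
    have h1 := (hmem t ht).2
    unfold V at h1
    rw [Set.mem_iInter₂] at h1
    have h2 := (h1 m (Finset.mem_range.2 (by omega))).2
    have h3 : c0 < (-1) ^ m * Gm j (m + 1) (β, t / J) ∧
      (-1) ^ m * Gm j (m + 1) (β, t / J) < C0 := h2
    have e1 : (-1 : ℝ) ^ (m + 1 + 1) * ((if m + 1 = 0 then (j : ℝ) * Real.log J else 0) +
        Gm j (m + 1) (β, t / J) / (J : ℝ) ^ (m + 1)) * (J : ℝ) ^ (m + 1) =
        (-1) ^ m * Gm j (m + 1) (β, t / J) := by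
      rw [if_neg (Nat.succ_ne_zero m), zero_add, pow_add, pow_add]
      field_simp
    show c0 ≤ (-1 : ℝ) ^ (m + 1 + 1) * ((if m + 1 = 0 then (j : ℝ) * Real.log J else 0) +
        Gm j (m + 1) (β, t / J) / (J : ℝ) ^ (m + 1)) * (J : ℝ) ^ (m + 1) ∧
      (-1 : ℝ) ^ (m + 1 + 1) * ((if m + 1 = 0 then (j : ℝ) * Real.log J else 0) +
        Gm j (m + 1) (β, t / J) / (J : ℝ) ^ (m + 1)) * (J : ℝ) ^ (m + 1) ≤ C0
    rw [e1]
    exact ⟨h3.1.le, h3.2.le⟩

end Pool.Agent.H619R2.FB5
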